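import Pool.Agent.Helper11.Coclass.Final

/-!
# p-adic space groups of finite coclass with point group of given coclass

For an odd prime `p` and every `s`, there are, up to isomorphism of topological groups, only
finitely many `p`-adic space groups `R` of finite coclass whose point group `R / T` has
coclass `s`. The definitions are in `Pool/Agent/Helper11/Coclass/Defs.lean`.
-/

namespace Pool.Agent.Results.MP_9a3597_al.PointGroupFiniteness

open Pool.Agent.Helper11.Coclass

/-- **Q1, full positive answer.** For `p` odd and every `s` there is a finite list of topological
groups such that every `p`-adic space group `R` of finite coclass whose point group `R / T` has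
coclass `s` is isomorphic, as a topological group, to a member of the list. -/
theorem result (p : ℕ) [Fact p.Prime] (hp : p ≠ 2) (s : ℕ) :
    ∃ (n : ℕ) (F : Fin n → Type) (_ : ∀ i, Group (F i)) (_ : ∀ i, TopologicalSpace (F i)),
      ∀ (R : Type) [Group R] [TopologicalSpace R] [IsTopologicalGroup R] (T : Subgroup R)
        [T.Normal] (d : ℕ), IsSpaceGroup p R T d → FiniteCoclass p R → HasCoclass p (R ⧸ T) s →
        ∃ i, Nonempty (R ≃ₜ* F i) :=
  finiteness p hp s

end Pool.Agent.Results.MP_9a3597_al.PointGroupFiniteness
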